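import Mathlib

/-!
# The orbit pseudometric of `Iso(U)` on closed sets reduces to the Gromov–Hausdorff distance

For a nonempty complete separable metric space `U` (for instance the Urysohn space) let `ρ` be the
orbit pseudometric of `Iso(U)` acting on the closed subsets of `U` with the Hausdorff distance. We
prove `ρ ≤_{B,u} ρ_GH`.

The pair `(U, A)` is coded by a metric on a countable index set: a base point and, for every level
`l`, a copy of a dense sequence of `U` with infinite repetitions. Distances between points of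
level `l` code `min 1 (2^a |d(x,y) - q_b|)` with `(a, b)` the pair coded by `l` (so `a ≤ l`),
distances between points of different levels `l < m` code `min 1 (2^l d(x,y))`, distances to the
base point code `min 1 (d(x, A))`. A Gromov–Hausdorff approximation of two codes is a
level preserving permutation; the images of a point on the different levels form a Cauchy
sequence, and the limit map is an exact surjective isometry of `U`.
-/

namespace Pool.Agent.Results.MP_d52b88_lc.OrbitToGH

open Metric Set Topology TopologicalSpace ENNReal UniformSpace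

/-- `f : ℝ^(ℕ × ℕ)` is a metric on `ℕ`. -/
def IsMet (f : ℕ × ℕ → ℝ) : Prop :=
  (∀ i j, f (i, j) = 0 ↔ i = j) ∧ (∀ i j, f (i, j) = f (j, i)) ∧
    (∀ i j k, f (i, k) ≤ f (i, j) + f (j, k))

/-- The space `𝓜` of all metrics on `ℕ`, a subspace of `ℝ^(ℕ × ℕ)`. -/
abbrev Met : Type := {f : ℕ × ℕ → ℝ // IsMet f}

/-- The set `ℕ` with the metric `f`. -/
def Pts (_f : Met) : Type := ℕ

noncomputable instance (f : Met) : MetricSpace (Pts f) where
  dist i j := f.1 (i, j)
  dist_self i := (f.2.1 i i).2 rfl
  dist_comm i j := f.2.2.1 i j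
  dist_triangle i j k := f.2.2.2 i j k
  eq_of_dist_eq_zero {i j} h := (f.2.1 i j).1 h

/-- The Polish space `M_f` coded by `f`: the completion of `(ℕ, f)`. -/
abbrev MSp (f : Met) : Type := UniformSpace.Completion (Pts f)

/-- The natural number `i` as a point of `(ℕ, f)`. -/
def toPts (f : Met) (i : ℕ) : Pts f := i

/-- The point of `M_f` given by `i : ℕ`. -/
noncomputable def pt (f : Met) (i : ℕ) : MSp f := (toPts f i : UniformSpace.Completion (Pts f))

/-- The Gromov–Hausdorff distance of `M_f` and `M_g`: the infimum of the Hausdorff distances between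
isometric copies of the two spaces inside a common metric space. -/
noncomputable def rhoGH (f g : Met) : ℝ≥0∞ :=
  sInf {r | ∃ (Z : Type) (_ : MetricSpace Z) (i : MSp f → Z) (j : MSp g → Z),
    Isometry i ∧ Isometry j ∧ r = hausdorffEDist (range i) (range j)}

/-- The orbit pseudometric of `Iso(U)` acting on the closed subsets of `U` with the Hausdorff
distance. -/
noncomputable def rhoOrb (U : Type) [MetricSpace U] (A B : Closeds U) : ℝ≥0∞ :=
  ⨅ (g : U ≃ᵢ U) (h : U ≃ᵢ U), hausdorffEDist (g '' (A : Set U)) (h '' (B : Set U))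

/-- The Effros σ-algebra on the closed subsets of `U`. -/
@[reducible] def effros (U : Type) [TopologicalSpace U] : MeasurableSpace (Closeds U) :=
  MeasurableSpace.generateFrom
    {S | ∃ V : Set U, IsOpen V ∧ S = {F : Closeds U | ((F : Set U) ∩ V).Nonempty}}

/-- `ρX ≤_{B,u} ρY`. -/
def BUReducible {X Y : Type} (mX : MeasurableSpace X) (mY : MeasurableSpace Y)
    (ρX : X → X → ℝ≥0∞) (ρY : Y → Y → ℝ≥0∞) : Prop :=
  ∃ F : X → Y, @Measurable X Y mX mY F ∧ ∀ ε : ℝ, 0 < ε →
    ∃ δX : ℝ, 0 < δX ∧ ∃ δY : ℝ, 0 < δY ∧ ∀ x y : X,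
      (ρX x y < ENNReal.ofReal δX → ρY (F x) (F y) < ENNReal.ofReal ε) ∧
      (ρY (F x) (F y) < ENNReal.ofReal δY → ρX x y < ENNReal.ofReal ε)

theorem dist_pt (f : Met) (i j : ℕ) : dist (pt f i) (pt f j) = f.1 (i, j) := by
  unfold pt
  rw [UniformSpace.Completion.dist_eq]
  rfl

theorem denseRange_pt (f : Met) : DenseRange (pt f) :=
  UniformSpace.Completion.denseRange_coe (α := Pts f)

/-- closeness up to a permutation gives Gromov–Hausdorff closeness. -/
theorem rhoGH_le {f g : Met} (π : ℕ ≃ ℕ) {δ : ℝ} (hδ : 0 < δ)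
    (h : ∀ i j, |f.1 (i, j) - g.1 (π i, π j)| ≤ 2 * δ) : rhoGH f g ≤ ENNReal.ofReal δ := by
  have H : ∀ p q, |dist (pt f p) (pt f q) - dist (pt g (π p)) (pt g (π q))| ≤ 2 * δ := by
    intro p q
    rw [dist_pt, dist_pt]
    exact h p q
  let mZ : MetricSpace (MSp f ⊕ MSp g) :=
    glueMetricApprox (fun p => pt f p) (fun p => pt g (π p)) δ hδ H
  refine le_trans (sInf_le ⟨MSp f ⊕ MSp g, mZ, Sum.inl, Sum.inr, ?_, ?_, rfl⟩) ?_
  · exact Isometry.of_dist_eq fun x y => rfl
  · exact Isometry.of_dist_eq fun x y => rfl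
  · have hl : Isometry (Sum.inl : MSp f → MSp f ⊕ MSp g) := Isometry.of_dist_eq fun x y => rfl
    have hr : Isometry (Sum.inr : MSp g → MSp f ⊕ MSp g) := Isometry.of_dist_eq fun x y => rfl
    have key : ∀ p, edist (Sum.inl (pt f p) : MSp f ⊕ MSp g) (Sum.inr (pt g (π p)))
        ≤ ENNReal.ofReal δ := by
      intro p
      rw [edist_dist]
      apply ENNReal.ofReal_le_ofReal
      exact (glueDist_glued_points (fun p => pt f p) (fun p => pt g (π p)) δ p).le
    refine hausdorffEDist_le_of_infEDist ?_ ?_
    · rintro _ ⟨x, rfl⟩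
      refine (denseRange_pt f).induction_on x ?_ ?_
      · exact isClosed_le (continuous_infEDist.comp hl.continuous) continuous_const
      · intro p
        exact le_trans (infEDist_le_edist_of_mem ⟨_, rfl⟩) (key p)
    · rintro _ ⟨x, rfl⟩
      refine (denseRange_pt g).induction_on x ?_ ?_
      · exact isClosed_le (continuous_infEDist.comp hr.continuous) continuous_const
      · intro p
        have := key (π.symm p)
        rw [Equiv.apply_symm_apply] at this
        refine le_trans (infEDist_le_edist_of_mem ⟨pt f (π.symm p), rfl⟩) ?_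
        rw [edist_comm]
        exact this

/-- Gromov–Hausdorff closeness of two uniformly discrete metrics comes from a permutation. -/
theorem exists_perm {f g : Met} {δ : ℝ} (hδ1 : δ ≤ 1)
    (hf : ∀ i j, i ≠ j → 8 ≤ f.1 (i, j)) (hg : ∀ i j, i ≠ j → 8 ≤ g.1 (i, j))
    (h : rhoGH f g < ENNReal.ofReal δ) :
    ∃ π : ℕ ≃ ℕ, ∀ i j, |f.1 (i, j) - g.1 (π i, π j)| < 2 * δ := by
  unfold rhoGH at h
  rw [sInf_lt_iff] at h
  obtain ⟨_, ⟨Z, mZ, i, j, hi, hj, rfl⟩, hlt⟩ := h
  have h1 : ∀ n : ℕ, ∃ m : ℕ, dist (i (pt f n)) (j (pt g m)) < δ := by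
    intro n
    obtain ⟨y, ⟨z, rfl⟩, hz⟩ := exists_edist_lt_of_hausdorffEDist_lt (mem_range_self (pt f n)) hlt
    have hopen : IsOpen {w | edist (i (pt f n)) (j w) < ENNReal.ofReal δ} :=
      isOpen_lt (continuous_const.edist hj.continuous) continuous_const
    obtain ⟨m, hm⟩ := (denseRange_pt g).exists_mem_open hopen ⟨z, hz⟩
    refine ⟨m, ?_⟩
    rw [mem_ofPred_eq, edist_lt_ofReal] at hm
    exact hm
  have h2 : ∀ m : ℕ, ∃ n : ℕ, dist (i (pt f n)) (j (pt g m)) < δ := by
    intro m
    rw [hausdorffEDist_comm] at hlt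
    obtain ⟨y, ⟨z, rfl⟩, hz⟩ := exists_edist_lt_of_hausdorffEDist_lt (mem_range_self (pt g m)) hlt
    have hopen : IsOpen {w | edist (i w) (j (pt g m)) < ENNReal.ofReal δ} :=
      isOpen_lt (hi.continuous.edist continuous_const) continuous_const
    rw [edist_comm] at hz
    obtain ⟨n, hn⟩ := (denseRange_pt f).exists_mem_open hopen ⟨z, hz⟩
    refine ⟨n, ?_⟩
    rw [mem_ofPred_eq, edist_lt_ofReal] at hn
    exact hn
  choose a ha using h1
  choose b hb using h2
  have hba : ∀ n, b (a n) = n := by
    intro n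
    by_contra hne
    have h3 := hf _ _ hne
    rw [← dist_pt, ← hi.dist_eq] at h3
    have h4 := dist_triangle_right (i (pt f (b (a n)))) (i (pt f n)) (j (pt g (a n)))
    have h5 := ha n
    have h6 := hb (a n)
    linarith
  have hab : ∀ m, a (b m) = m := by
    intro m
    by_contra hne
    have h3 := hg _ _ hne
    rw [← dist_pt, ← hj.dist_eq] at h3
    have h4 := dist_triangle_left (j (pt g (a (b m)))) (j (pt g m)) (i (pt f (b m)))
    have h5 := ha (b m)
    have h6 := hb m
    linarith
  refine ⟨⟨a, b, hba, hab⟩, ?_⟩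
  intro n m
  show |f.1 (n, m) - g.1 (a n, a m)| < 2 * δ
  rw [← dist_pt, ← dist_pt, ← hi.dist_eq, ← hj.dist_eq]
  have h5 := ha n
  have h6 := ha m
  have t1 := dist_triangle4 (i (pt f n)) (j (pt g (a n))) (j (pt g (a m))) (i (pt f m))
  have t2 := dist_triangle4 (j (pt g (a n))) (i (pt f n)) (i (pt f m)) (j (pt g (a m)))
  rw [dist_comm (j (pt g (a m))) (i (pt f m))] at t1
  rw [dist_comm (j (pt g (a n))) (i (pt f n))] at t2
  rw [abs_lt]
  constructor <;> linarith


section coding

variable {U : Type} [MetricSpace U]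

/-- The dense sequence with infinite repetitions. -/
def xs (u : ℕ → U) (n : ℕ) : U := u n.unpair.1

/-- The separating functions. -/
noncomputable def FF (q : ℕ → ℝ) (l : ℕ) (t : ℝ) : ℝ :=
  min 1 (2 ^ l.unpair.1 * |t - q l.unpair.2|)

/-- The linking functions. -/
noncomputable def GG (k : ℕ) (t : ℝ) : ℝ := min 1 (2 ^ k * t)

/-- The truncated distance to a set. -/
noncomputable def hh (A : Set U) (y : U) : ℝ := (min 1 (infEDist y A)).toReal

/-- The labels. -/
noncomputable def lab (u : ℕ → U) (q : ℕ → ℝ) (A : Set U) :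
    Option (ℕ × ℕ) → Option (ℕ × ℕ) → ℝ
  | none, none => 8
  | none, some p => 14 + hh A (xs u p.2)
  | some p, none => 14 + hh A (xs u p.2)
  | some p, some r => 8 + (if p.1 = r.1 then FF q p.1 (dist (xs u p.2) (xs u r.2))
      else GG (min p.1 r.1) (dist (xs u p.2) (xs u r.2)))

/-- The level. -/
def lev : Option (ℕ × ℕ) → ℝ
  | none => 0
  | some p => p.1

theorem FF_nonneg (q : ℕ → ℝ) (l : ℕ) (t : ℝ) : 0 ≤ FF q l t := by
  unfold FF; positivity

theorem FF_le_one (q : ℕ → ℝ) (l : ℕ) (t : ℝ) : FF q l t ≤ 1 := min_le_left _ _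

theorem GG_nonneg (k : ℕ) {t : ℝ} (ht : 0 ≤ t) : 0 ≤ GG k t := by
  unfold GG; positivity

theorem GG_le_one (k : ℕ) (t : ℝ) : GG k t ≤ 1 := min_le_left _ _

theorem hh_nonneg (A : Set U) (y : U) : 0 ≤ hh A y := ENNReal.toReal_nonneg

theorem hh_le_one (A : Set U) (y : U) : hh A y ≤ 1 := by
  unfold hh
  have : (min 1 (infEDist y A)).toReal ≤ (1 : ℝ≥0∞).toReal :=
    ENNReal.toReal_mono (by simp) (min_le_left _ _)
  simpa using this

theorem abs_min_one_sub (a b : ℝ) : |min 1 a - min 1 b| ≤ |a - b| := by
  have := abs_min_sub_min_le_max 1 a 1 b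
  simpa using this

theorem FF_lip (q : ℕ → ℝ) (l : ℕ) (s t : ℝ) : |FF q l s - FF q l t| ≤ 2 ^ l * |s - t| := by
  unfold FF
  refine (abs_min_one_sub _ _).trans ?_
  rw [← mul_sub, abs_mul, abs_of_pos (by positivity : (0:ℝ) < 2 ^ l.unpair.1)]
  have h1 : (2:ℝ) ^ l.unpair.1 ≤ 2 ^ l := pow_le_pow_right₀ (by norm_num) (Nat.unpair_left_le l)
  have h2 := abs_abs_sub_abs_le (s - q l.unpair.2) (t - q l.unpair.2)
  rw [sub_sub_sub_cancel_right] at h2
  exact mul_le_mul h1 h2 (abs_nonneg _) (by positivity)

theorem GG_lip (k : ℕ) (s t : ℝ) : |GG k s - GG k t| ≤ 2 ^ k * |s - t| := by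
  unfold GG
  refine (abs_min_one_sub _ _).trans ?_
  rw [← mul_sub, abs_mul, abs_of_pos (by positivity : (0:ℝ) < 2 ^ k)]

theorem lab_comm (u : ℕ → U) (q : ℕ → ℝ) (A : Set U) (p r : Option (ℕ × ℕ)) :
    lab u q A p r = lab u q A r p := by
  rcases p with _ | p <;> rcases r with _ | r
  · rfl
  · rfl
  · rfl
  · unfold lab
    by_cases h : p.1 = r.1
    · simp only [h, if_true, dist_comm]
    · have h' : ¬ r.1 = p.1 := fun h2 => h h2.symm
      simp only [h, h', if_false, dist_comm, min_comm]

theorem le_lab (u : ℕ → U) (q : ℕ → ℝ) (A : Set U) (p r : Option (ℕ × ℕ)) :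
    8 ≤ lab u q A p r := by
  rcases p with _ | p <;> rcases r with _ | r
  · exact le_refl _
  · have := hh_nonneg A (xs u r.2)
    unfold lab; linarith
  · have := hh_nonneg A (xs u p.2)
    unfold lab; linarith
  · simp only [lab]
    have h1 := FF_nonneg q p.1 (dist (xs u p.2) (xs u r.2))
    have h2 := GG_nonneg (min p.1 r.1) (dist_nonneg (x := xs u p.2) (y := xs u r.2))
    split_ifs <;> linarith

theorem lab_le (u : ℕ → U) (q : ℕ → ℝ) (A : Set U) (p r : Option (ℕ × ℕ)) :
    lab u q A p r ≤ 15 := by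
  rcases p with _ | p <;> rcases r with _ | r
  · unfold lab; norm_num
  · have := hh_le_one A (xs u r.2)
    unfold lab; linarith
  · have := hh_le_one A (xs u p.2)
    unfold lab; linarith
  · simp only [lab]
    have h1 := FF_le_one q p.1 (dist (xs u p.2) (xs u r.2))
    have h2 := GG_le_one (min p.1 r.1) (dist (xs u p.2) (xs u r.2))
    split_ifs <;> linarith

theorem lab_some_some_le (u : ℕ → U) (q : ℕ → ℝ) (A : Set U) (p r : ℕ × ℕ) :
    lab u q A (some p) (some r) ≤ 9 := by
  simp only [lab]
  have h1 := FF_le_one q p.1 (dist (xs u p.2) (xs u r.2))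
  have h2 := GG_le_one (min p.1 r.1) (dist (xs u p.2) (xs u r.2))
  split_ifs <;> linarith

theorem le_lab_none_some (u : ℕ → U) (q : ℕ → ℝ) (A : Set U) (p : ℕ × ℕ) :
    14 ≤ lab u q A none (some p) := by
  have := hh_nonneg A (xs u p.2)
  unfold lab; linarith

/-- The metric on the index set. -/
noncomputable def DD (u : ℕ → U) (q : ℕ → ℝ) (A : Set U) (p r : Option (ℕ × ℕ)) : ℝ :=
  if p = r then 0 else 20 * |lev p - lev r| + lab u q A p r

/-- The bijection between `ℕ` and the index set. -/
noncomputable def ee : ℕ ≃ Option (ℕ × ℕ) := (Denumerable.eqv (Option (ℕ × ℕ))).symm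

/-- The code. -/
noncomputable def code (u : ℕ → U) (q : ℕ → ℝ) (A : Set U) : Met :=
  ⟨fun p => DD u q A (ee p.1) (ee p.2), by
    refine ⟨?_, ?_, ?_⟩
    · intro i j
      dsimp only
      unfold DD
      constructor
      · intro h
        by_contra hne
        have h1 : ee i ≠ ee j := fun h2 => hne (ee.injective h2)
        rw [if_neg h1] at h
        have h2 := le_lab u q A (ee i) (ee j)
        have h3 := abs_nonneg (lev (ee i) - lev (ee j))
        linarith
      · rintro rfl
        rw [if_pos rfl]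
    · intro i j
      dsimp only
      unfold DD
      rw [abs_sub_comm, lab_comm]
      simp only [eq_comm]
    · intro i j k
      dsimp only
      unfold DD
      have h1 := le_lab u q A (ee i) (ee j)
      have h2 := le_lab u q A (ee j) (ee k)
      have h3 := lab_le u q A (ee i) (ee k)
      have h4 := abs_nonneg (lev (ee i) - lev (ee j))
      have h5 := abs_nonneg (lev (ee j) - lev (ee k))
      have h6 := abs_sub_le (lev (ee i)) (lev (ee j)) (lev (ee k))
      by_cases e1 : ee i = ee k
      · rw [if_pos e1]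
        split_ifs <;> linarith
      · rw [if_neg e1]
        by_cases e2 : ee i = ee j
        · have e3 : ¬ ee j = ee k := fun h => e1 (e2.trans h)
          rw [if_pos e2, if_neg e3, e2, zero_add]
        · rw [if_neg e2]
          by_cases e3 : ee j = ee k
          · rw [if_pos e3, e3, add_zero]
          · rw [if_neg e3]
            linarith⟩

theorem code_apply (u : ℕ → U) (q : ℕ → ℝ) (A : Set U) (i j : ℕ) :
    (code u q A).1 (i, j) = DD u q A (ee i) (ee j) := rfl

theorem le_code (u : ℕ → U) (q : ℕ → ℝ) (A : Set U) (i j : ℕ) (h : i ≠ j) :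
    8 ≤ (code u q A).1 (i, j) := by
  rw [code_apply]
  unfold DD
  have h1 : ee i ≠ ee j := fun h2 => h (ee.injective h2)
  rw [if_neg h1]
  have h1 := le_lab u q A (ee i) (ee j)
  have h4 := abs_nonneg (lev (ee i) - lev (ee j))
  linarith


/-- Matching of the dense sequence with its image under an isometry. -/
theorem exists_match {u : ℕ → U} (hu : DenseRange u) (k : U ≃ᵢ U) {η : ℝ} (hη : 0 < η) :
    ∃ τ : ℕ ≃ ℕ, ∀ n, dist (k (xs u n)) (xs u (τ n)) < η := by
  have h1 : ∀ n, ∃ s, dist (k (xs u n)) (u s) < η := fun n => hu.exists_dist_lt _ hη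
  have h2 : ∀ m, ∃ s, dist (k (u s)) (xs u m) < η := by
    intro m
    obtain ⟨s, hs⟩ := hu.exists_dist_lt (k.symm (xs u m)) hη
    refine ⟨s, ?_⟩
    rw [← k.dist_eq, k.apply_symm_apply, dist_comm] at hs
    exact hs
  choose a ha using h1
  choose b hb using h2
  obtain ⟨h, hbij, hR⟩ := Function.Embedding.schroeder_bernstein_of_rel
    (f := fun n => Nat.pair (a n) n) (g := fun m => Nat.pair (b m) m)
    (fun n m h => (Nat.pair_eq_pair.1 h).2) (fun n m h => (Nat.pair_eq_pair.1 h).2)
    (fun n m => dist (k (xs u n)) (xs u m) < η)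
    (fun n => by
      have : xs u (Nat.pair (a n) n) = u (a n) := by simp [xs]
      rw [this]; exact ha n)
    (fun m => by
      have : xs u (Nat.pair (b m) m) = u (b m) := by simp [xs]
      rw [this]; exact hb m)
  exact ⟨Equiv.ofBijective h hbij, hR⟩

theorem hh_le {A B : Set U} {y y' : U} {c : ℝ} (hc : 0 ≤ c)
    (h : infEDist y A ≤ infEDist y' B + ENNReal.ofReal c) : hh A y ≤ hh B y' + c := by
  unfold hh
  have h1 : min 1 (infEDist y A) ≤ min 1 (infEDist y' B) + ENNReal.ofReal c := by
    rcases le_total 1 (infEDist y' B) with h2 | h2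
    · rw [min_eq_left h2]
      exact (min_le_left _ _).trans le_self_add
    · rw [min_eq_right h2]
      exact (min_le_right _ _).trans h
  have h3 : min 1 (infEDist y' B) ≠ ∞ := ne_top_of_le_ne_top ENNReal.one_ne_top (min_le_left _ _)
  have h2 := ENNReal.toReal_mono (ENNReal.add_ne_top.2 ⟨h3, ENNReal.ofReal_ne_top⟩) h1
  rw [ENNReal.toReal_add h3 ENNReal.ofReal_ne_top, ENNReal.toReal_ofReal hc] at h2
  exact h2

theorem hh_close {A B : Set U} (k : U ≃ᵢ U) {δ : ℝ} (hδ : 0 < δ)
    (h : hausdorffEDist (k '' A) B < ENNReal.ofReal δ) {x y : U} (hxy : dist (k x) y ≤ δ) :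
    |hh A x - hh B y| ≤ 2 * δ := by
  have hx : infEDist (k x) (k '' A) = infEDist x A := infEDist_image k.isometry
  have he : edist (k x) y ≤ ENNReal.ofReal δ := by
    rw [edist_dist]; exact ENNReal.ofReal_le_ofReal hxy
  have hsum : ENNReal.ofReal δ + ENNReal.ofReal δ = ENNReal.ofReal (2 * δ) := by
    rw [← ENNReal.ofReal_add hδ.le hδ.le, two_mul]
  rw [abs_le]
  constructor
  · have : hh B y ≤ hh A x + 2 * δ := by
      apply hh_le (by positivity)
      calc infEDist y B ≤ infEDist (k x) B + edist (k x) y := by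
            have := infEDist_le_infEDist_add_edist (x := y) (y := k x) (s := B)
            rwa [edist_comm] at this
        _ ≤ (infEDist (k x) (k '' A) + hausdorffEDist (k '' A) B) + edist (k x) y := by
            gcongr
            exact infEDist_le_infEDist_add_hausdorffEDist
        _ ≤ (infEDist x A + ENNReal.ofReal δ) + ENNReal.ofReal δ := by
            rw [hx]
            gcongr
        _ = infEDist x A + ENNReal.ofReal (2 * δ) := by rw [add_assoc, hsum]
    linarith
  · have : hh A x ≤ hh B y + 2 * δ := by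
      apply hh_le (by positivity)
      calc infEDist x A = infEDist (k x) (k '' A) := hx.symm
        _ ≤ infEDist (k x) B + hausdorffEDist B (k '' A) := infEDist_le_infEDist_add_hausdorffEDist
        _ ≤ (infEDist y B + edist (k x) y) + hausdorffEDist (k '' A) B := by
            rw [hausdorffEDist_comm (s := B)]
            gcongr
            exact infEDist_le_infEDist_add_edist
        _ ≤ (infEDist y B + ENNReal.ofReal δ) + ENNReal.ofReal δ := by
            gcongr
        _ = infEDist y B + ENNReal.ofReal (2 * δ) := by rw [add_assoc, hsum]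
    linarith

theorem abs_dist_sub_dist_le (a b c d : U) :
    |dist a b - dist c d| ≤ dist a c + dist b d := by
  have h1 := dist_triangle4 a c d b
  have h2 := dist_triangle4 c a b d
  rw [dist_comm d b] at h1
  rw [dist_comm c a] at h2
  rw [abs_le]
  constructor <;> linarith

/-- If two closed sets are close up to an isometry then the codes are close. -/
theorem rhoGH_code_le {u : ℕ → U} (hu : DenseRange u) (q : ℕ → ℝ) {A B : Set U} (k : U ≃ᵢ U)
    {δ : ℝ} (hδ : 0 < δ) (h : hausdorffEDist (k '' A) B < ENNReal.ofReal δ) :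
    rhoGH (code u q A) (code u q B) ≤ ENNReal.ofReal δ := by
  have hm : ∀ l : ℕ, ∃ τ : ℕ ≃ ℕ, ∀ n, dist (k (xs u n)) (xs u (τ n)) < δ / 2 ^ l := fun l =>
    exists_match hu k (by positivity)
  choose τ hτ using hm
  let σ : Option (ℕ × ℕ) ≃ Option (ℕ × ℕ) := Equiv.optionCongr
    { toFun := fun p => (p.1, τ p.1 p.2)
      invFun := fun p => (p.1, (τ p.1).symm p.2)
      left_inv := fun p => by simp
      right_inv := fun p => by simp }
  have hσn : σ none = none := rfl
  have hσs : ∀ p, σ (some p) = some (p.1, τ p.1 p.2) := fun p => rfl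
  have hlev : ∀ p, lev (σ p) = lev p := by
    intro p
    rcases p with _ | p
    · rfl
    · rfl
  have hdl : ∀ l : ℕ, δ / 2 ^ l ≤ δ := fun l =>
    div_le_self hδ.le (one_le_pow₀ (by norm_num))
  have hlab : ∀ p r, |lab u q A p r - lab u q B (σ p) (σ r)| ≤ 2 * δ := by
    intro p r
    rcases p with _ | p <;> rcases r with _ | r
    · rw [hσn]
      simp only [lab, sub_self, abs_zero]
      positivity
    · rw [hσn, hσs]
      simp only [lab, add_sub_add_left_eq_sub]
      exact hh_close k hδ h ((hτ _ _).le.trans (hdl _))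
    · rw [hσn, hσs]
      simp only [lab, add_sub_add_left_eq_sub]
      exact hh_close k hδ h ((hτ _ _).le.trans (hdl _))
    · rw [hσs, hσs]
      simp only [lab, add_sub_add_left_eq_sub]
      have h1 := hτ p.1 p.2
      have h2 := hτ r.1 r.2
      have h3 := abs_dist_sub_dist_le (k (xs u p.2)) (k (xs u r.2)) (xs u (τ p.1 p.2))
        (xs u (τ r.1 r.2))
      rw [k.dist_eq] at h3
      by_cases hpr : p.1 = r.1
      · rw [if_pos hpr, if_pos hpr]
        refine (FF_lip _ _ _ _).trans ?_
        rw [← hpr] at h2 h3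
        have h4 : 2 ^ p.1 * |dist (xs u p.2) (xs u r.2) - dist (xs u (τ p.1 p.2)) (xs u (τ p.1 r.2))|
            ≤ 2 ^ p.1 * (δ / 2 ^ p.1 + δ / 2 ^ p.1) := by
          gcongr
          linarith
        rw [← hpr]
        refine h4.trans (le_of_eq ?_)
        field_simp
        ring
      · rw [if_neg hpr, if_neg hpr]
        refine (GG_lip _ _ _).trans ?_
        have e1 : δ / 2 ^ p.1 ≤ δ / 2 ^ (min p.1 r.1) := by
          apply div_le_div_of_nonneg_left hδ.le (by positivity)
          exact pow_le_pow_right₀ (by norm_num) (min_le_left _ _)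
        have e2 : δ / 2 ^ r.1 ≤ δ / 2 ^ (min p.1 r.1) := by
          apply div_le_div_of_nonneg_left hδ.le (by positivity)
          exact pow_le_pow_right₀ (by norm_num) (min_le_right _ _)
        have h4 : 2 ^ (min p.1 r.1) *
            |dist (xs u p.2) (xs u r.2) - dist (xs u (τ p.1 p.2)) (xs u (τ r.1 r.2))|
            ≤ 2 ^ (min p.1 r.1) * (δ / 2 ^ (min p.1 r.1) + δ / 2 ^ (min p.1 r.1)) := by
          gcongr
          linarith
        refine h4.trans (le_of_eq ?_)
        field_simp
        ring
  refine rhoGH_le ((ee.trans σ).trans ee.symm) hδ ?_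
  intro i j
  rw [code_apply, code_apply]
  simp only [Equiv.trans_apply, Equiv.apply_symm_apply]
  unfold DD
  by_cases hij : ee i = ee j
  · have : σ (ee i) = σ (ee j) := by rw [hij]
    rw [if_pos hij, if_pos this]
    simp only [sub_self, abs_zero]
    positivity
  · have : ¬ σ (ee i) = σ (ee j) := fun h => hij (σ.injective h)
    rw [if_neg hij, if_neg this, hlev, hlev]
    have := hlab (ee i) (ee j)
    simpa using this


/-- The functions `FF` separate the reals uniformly. -/
theorem FF_separates {q : ℕ → ℝ} (hq : DenseRange q) {s t : ℝ} (hst : s ≠ t) :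
    ∃ l, 3 / 4 ≤ |FF q l s - FF q l t| := by
  have hpos : 0 < |s - t| := abs_pos.2 (sub_ne_zero.2 hst)
  obtain ⟨a, ha⟩ := pow_unbounded_of_one_lt (2 / |s - t|) (by norm_num : (1:ℝ) < 2)
  rw [div_lt_iff₀ hpos] at ha
  have h2a : (0:ℝ) < 2 ^ a := by positivity
  obtain ⟨b, hb⟩ := hq.exists_dist_lt s (show (0:ℝ) < 1 / 4 / 2 ^ a by positivity)
  rw [Real.dist_eq] at hb
  have hb' : 2 ^ a * |s - q b| < 1 / 4 := by
    rwa [lt_div_iff₀ h2a, mul_comm] at hb
  refine ⟨Nat.pair a b, ?_⟩
  unfold FF
  rw [Nat.unpair_pair]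
  have h1 : |s - t| ≤ |s - q b| + |t - q b| := by
    have := abs_sub_le s (q b) t
    rwa [abs_sub_comm (q b) t] at this
  have h3 : 1 ≤ 2 ^ a * |t - q b| := by nlinarith
  have h4 : min 1 (2 ^ a * |t - q b|) = 1 := min_eq_left h3
  have h5 : min 1 (2 ^ a * |s - q b|) ≤ 1 / 4 := (min_le_right _ _).trans hb'.le
  dsimp only
  rw [h4, abs_sub_comm, abs_of_nonneg (by linarith)]
  linarith

/-- Extension of an isometric map from a dense sequence to a surjective isometry. -/
theorem exists_isometryEquiv [CompleteSpace U] {W : Type} {x g : W → U} (hx : DenseRange x)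
    (hgd : DenseRange g)
    (hg : ∀ n m, dist (g n) (g m) = dist (x n) (x m)) :
    ∃ G : U ≃ᵢ U, ∀ n, G (x n) = g n := by
  let pm : PseudoMetricSpace W := PseudoMetricSpace.induced (fun n : W => x n) inferInstance
  have hxi : Isometry (fun n : W => x n) := Isometry.of_dist_eq fun a b => rfl
  have hgi : Isometry (fun n : W => g n) := Isometry.of_dist_eq fun a b => hg a b
  have hxu := hxi.isUniformInducing
  have hdi := hxu.isDenseInducing hx
  have huc := uniformContinuous_uniformly_extend hxu hx hgi.uniformContinuous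
  have hval : ∀ n : W, hdi.extend (fun n : W => g n) (x n) = g n := fun n =>
    hdi.extend_eq_at hgi.continuous.continuousAt
  set G := hdi.extend (fun n : W => g n) with hGdef
  have hGc : Continuous G := huc.continuous
  have hGi : Isometry G := by
    apply Isometry.of_dist_eq
    intro y z
    refine hx.induction_on₂ (p := fun y z => dist (G y) (G z) = dist y z) ?_ ?_ y z
    · exact isClosed_eq ((hGc.comp continuous_fst).dist (hGc.comp continuous_snd)) continuous_dist
    · intro a b
      rw [hval a, hval b]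
      exact hg a b
  have hGs : Function.Surjective G := by
    intro y
    have hcl : IsClosed (range G) := hGi.isClosedEmbedding.isClosed_range
    have : closure (range g) ⊆ range G := by
      apply closure_minimal _ hcl
      rintro _ ⟨n, rfl⟩
      exact ⟨x n, hval n⟩
    exact this (hgd y)
  exact ⟨IsometryEquiv.mk (Equiv.ofBijective G ⟨hGi.injective, hGs⟩) hGi, hval⟩

theorem exists_dist_lt_of_hh {A : Set U} {y : U} {c : ℝ} (hc1 : c ≤ 1) (h : hh A y < c) :
    ∃ a ∈ A, dist y a < c := by
  unfold hh at h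
  have hne : min 1 (infEDist y A) ≠ ∞ := ne_top_of_le_ne_top ENNReal.one_ne_top (min_le_left _ _)
  have h1 := (ENNReal.lt_ofReal_iff_toReal_lt hne).2 h
  have h2 : infEDist y A < ENNReal.ofReal c := by
    rcases min_lt_iff.1 h1 with h3 | h3
    · exfalso
      have : ENNReal.ofReal c ≤ 1 := by
        rw [← ENNReal.ofReal_one]; exact ENNReal.ofReal_le_ofReal hc1
      exact absurd h3 (not_lt.2 this)
    · exact h3
  obtain ⟨a, ha, hlt⟩ := infEDist_lt_iff.1 h2
  exact ⟨a, ha, by rwa [edist_lt_ofReal] at hlt⟩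

theorem hh_lt_of_dist {A : Set U} {y a : U} (ha : a ∈ A) {c : ℝ} (h : dist y a < c) :
    hh A y < c := by
  unfold hh
  have hne : min 1 (infEDist y A) ≠ ∞ := ne_top_of_le_ne_top ENNReal.one_ne_top (min_le_left _ _)
  rw [← ENNReal.lt_ofReal_iff_toReal_lt hne]
  refine lt_of_le_of_lt ((min_le_right _ _).trans (infEDist_le_edist_of_mem ha)) ?_
  rwa [edist_lt_ofReal]

/-- Decoding: if the codes are close then the sets are close up to an isometry. -/
theorem rhoOrb_le [CompleteSpace U] {u : ℕ → U} (hu : DenseRange u) {q : ℕ → ℝ}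
    (hq : DenseRange q) {A B : Set U} {δ : ℝ} (hδ : 0 < δ) (hδ8 : δ ≤ 1 / 8)
    (h : rhoGH (code u q A) (code u q B) < ENNReal.ofReal δ) :
    ∃ G : U ≃ᵢ U, hausdorffEDist (G '' A) B ≤ ENNReal.ofReal (6 * δ) := by
  obtain ⟨π, hπ⟩ := exists_perm (by linarith) (le_code u q A) (le_code u q B) h
  let σ : Option (ℕ × ℕ) ≃ Option (ℕ × ℕ) := (ee.symm.trans π).trans ee
  have hσ0 : ∀ p r, |DD u q A p r - DD u q B (σ p) (σ r)| < 2 * δ := by
    intro p r
    have := hπ (ee.symm p) (ee.symm r)
    rw [code_apply, code_apply] at this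
    simpa [σ] using this
  have hσ : ∀ p r, p ≠ r → |lev p - lev r| = |lev (σ p) - lev (σ r)| ∧
      |lab u q A p r - lab u q B (σ p) (σ r)| < 2 * δ := by
    intro p r hpr
    have h1 := hσ0 p r
    unfold DD at h1
    rw [if_neg hpr, if_neg (fun h2 => hpr (σ.injective h2))] at h1
    have h2 := le_lab u q A p r
    have h3 := le_lab u q B (σ p) (σ r)
    have h4 := lab_le u q A p r
    have h5 := lab_le u q B (σ p) (σ r)
    have hint : ∀ p : Option (ℕ × ℕ), ∃ z : ℤ, lev p = z := by
      intro p
      rcases p with _ | p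
      · exact ⟨0, by simp [lev]⟩
      · exact ⟨p.1, by simp [lev]⟩
    have hint2 : ∀ p r : Option (ℕ × ℕ), ∃ z : ℤ, |lev p - lev r| = z := by
      intro p r
      obtain ⟨a, ha⟩ := hint p
      obtain ⟨b, hb⟩ := hint r
      exact ⟨|a - b|, by rw [ha, hb]; push_cast; rfl⟩
    obtain ⟨a, ha⟩ := hint2 p r
    obtain ⟨b, hb⟩ := hint2 (σ p) (σ r)
    rw [ha, hb] at h1
    rw [abs_lt] at h1
    have hab : a = b := by
      have e1 : (a : ℝ) < b + 1 := by linarith [h1.1, h1.2]
      have e2 : (b : ℝ) < a + 1 := by linarith [h1.1, h1.2]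
      have e1' : a < b + 1 := by exact_mod_cast e1
      have e2' : b < a + 1 := by exact_mod_cast e2
      omega
    refine ⟨by rw [ha, hb, hab], ?_⟩
    rw [hab] at h1
    rw [abs_lt]
    constructor <;> linarith [h1.1, h1.2]
  -- the base point is fixed
  have hσnone : σ none = none := by
    by_contra hne
    obtain ⟨a, ha⟩ := Option.ne_none_iff_exists'.1 hne
    have hk : ∀ p : ℕ × ℕ, σ (some p) = none := by
      intro p
      have h1 := (hσ none (some p) (by simp)).2
      have h2 := le_lab_none_some u q A p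
      rw [ha] at h1
      by_contra hne2
      obtain ⟨b, hb⟩ := Option.ne_none_iff_exists'.1 hne2
      rw [hb] at h1
      have h3 := lab_some_some_le u q B a b
      rw [abs_lt] at h1
      linarith [h1.1, h1.2]
    have := σ.injective ((hk (0, 0)).trans (hk (0, 1)).symm)
    simp at this
  have hσsome : ∀ p : ℕ × ℕ, ∃ m, σ (some p) = some (p.1, m) := by
    intro p
    have h1 : σ (some p) ≠ none := by
      intro h2
      have := σ.injective (h2.trans hσnone.symm)
      simp at this
    obtain ⟨r, hr⟩ := Option.ne_none_iff_exists'.1 h1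
    have h2 := (hσ (some p) none (by simp)).1
    rw [hσnone, hr] at h2
    simp only [lev, sub_zero] at h2
    rw [abs_of_nonneg (Nat.cast_nonneg _), abs_of_nonneg (Nat.cast_nonneg _)] at h2
    have h3 : p.1 = r.1 := by exact_mod_cast h2
    exact ⟨r.2, by rw [hr, h3]⟩
  choose τ hτ using hσsome
  have hτsurj : ∀ l m, ∃ n, τ (l, n) = m := by
    intro l m
    obtain ⟨p, hp⟩ := σ.surjective (some (l, m))
    rcases p with _ | p
    · rw [hσnone] at hp
      simp at hp
    · rw [hτ] at hp
      simp only [Option.some.injEq, Prod.mk.injEq] at hp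
      refine ⟨p.2, ?_⟩
      rw [← hp.1]
      exact hp.2
  -- the label inequalities
  have hS : ∀ l n m, |FF q l (dist (xs u n) (xs u m)) -
      FF q l (dist (xs u (τ (l, n))) (xs u (τ (l, m))))| < 2 * δ := by
    intro l n m
    by_cases hnm : n = m
    · subst hnm
      simp only [dist_self, sub_self, abs_zero]
      positivity
    · have h1 := (hσ (some (l, n)) (some (l, m)) (by simpa using hnm)).2
      rw [hτ, hτ] at h1
      simpa [lab] using h1
  have hL : ∀ l m, l < m → ∀ n, dist (xs u (τ (l, n))) (xs u (τ (m, n))) ≤ 2 * δ / 2 ^ l := by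
    intro l m hlm n
    have h1 := (hσ (some (l, n)) (some (m, n)) (by simp [hlm.ne])).2
    rw [hτ, hτ] at h1
    simp only [lab, hlm.ne, if_false, min_eq_left hlm.le, dist_self, add_sub_add_left_eq_sub] at h1
    have h0 : GG l 0 = 0 := by simp [GG]
    rw [h0, zero_sub, abs_neg, abs_of_nonneg (GG_nonneg _ dist_nonneg)] at h1
    unfold GG at h1
    rcases min_lt_iff.1 h1 with h2 | h2
    · linarith
    · rw [le_div_iff₀ (by positivity), mul_comm]
      exact h2.le
  have hM : ∀ n, |hh A (xs u n) - hh B (xs u (τ (0, n)))| < 2 * δ := by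
    intro n
    have h1 := (hσ none (some (0, n)) (by simp)).2
    rw [hτ, hσnone] at h1
    simpa [lab] using h1
  -- the limit map
  have hlim : ∀ n, ∃ y, ∀ l, dist (xs u (τ (l, n))) y ≤ 2 * δ / 2 ^ l := by
    intro n
    have hcs : CauchySeq (fun l => xs u (τ (l, n))) := by
      refine cauchySeq_of_le_tendsto_0 (fun l => 2 * (2 * δ / 2 ^ l)) ?_ ?_
      · intro l m N hl hm
        have key : ∀ l, N ≤ l → dist (xs u (τ (N, n))) (xs u (τ (l, n))) ≤ 2 * δ / 2 ^ N := by
          intro l hl
          rcases hl.eq_or_lt with rfl | hl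
          · rw [dist_self]; positivity
          · exact hL N l hl n
        have h1 := key l hl
        have h2 := key m hm
        have h3 := dist_triangle_left (xs u (τ (l, n))) (xs u (τ (m, n))) (xs u (τ (N, n)))
        linarith
      · have h1 : Filter.Tendsto (fun l : ℕ => (1 / 2 : ℝ) ^ l) Filter.atTop (𝓝 0) :=
          tendsto_pow_atTop_nhds_zero_of_lt_one (by norm_num) (by norm_num)
        have h2 := h1.const_mul (4 * δ)
        rw [mul_zero] at h2
        refine h2.congr fun l => ?_
        rw [one_div, inv_pow]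
        field_simp
        ring
    obtain ⟨y, hy⟩ := cauchySeq_tendsto_of_complete hcs
    refine ⟨y, fun l => ?_⟩
    have h1 : Filter.Tendsto (fun m => dist (xs u (τ (l, n))) (xs u (τ (m, n)))) Filter.atTop
        (𝓝 (dist (xs u (τ (l, n))) y)) := tendsto_const_nhds.dist hy
    refine le_of_tendsto h1 ?_
    filter_upwards [Filter.eventually_gt_atTop l] with m hm
    exact hL l m hm n
  choose g hg using hlim
  have hgd : ∀ n m, dist (g n) (g m) = dist (xs u n) (xs u m) := by
    intro n m
    by_contra hne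
    obtain ⟨l, hl⟩ := FF_separates hq hne
    have h1 := hS l n m
    have h2 := FF_lip q l (dist (g n) (g m)) (dist (xs u (τ (l, n))) (xs u (τ (l, m))))
    have h3 := abs_dist_sub_dist_le (g n) (g m) (xs u (τ (l, n))) (xs u (τ (l, m)))
    have h4 := hg n l
    have h5 := hg m l
    rw [dist_comm] at h4 h5
    have h6 : 2 ^ l * |dist (g n) (g m) - dist (xs u (τ (l, n))) (xs u (τ (l, m)))| ≤ 4 * δ := by
      calc 2 ^ l * |dist (g n) (g m) - dist (xs u (τ (l, n))) (xs u (τ (l, m)))|
          ≤ 2 ^ l * (2 * δ / 2 ^ l + 2 * δ / 2 ^ l) := by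
            gcongr
            linarith
        _ = 4 * δ := by
            field_simp
            ring
    have h7 := abs_sub_le (FF q l (dist (g n) (g m)))
      (FF q l (dist (xs u (τ (l, n))) (xs u (τ (l, m))))) (FF q l (dist (xs u n) (xs u m)))
    rw [abs_sub_comm (FF q l (dist (xs u (τ (l, n))) (xs u (τ (l, m)))))
      (FF q l (dist (xs u n) (xs u m)))] at h7
    linarith
  have hxd : DenseRange (xs u) := by
    intro y
    refine closure_mono ?_ (hu y)
    rintro _ ⟨n, rfl⟩
    exact ⟨Nat.pair n 0, by simp [xs]⟩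
  have hgdense : DenseRange g := by
    intro y
    rw [Metric.mem_closure_range_iff]
    intro ε hε
    obtain ⟨m, hm⟩ := hxd.exists_dist_lt y (half_pos hε)
    obtain ⟨l, hl⟩ := pow_unbounded_of_one_lt (2 * δ / (ε / 2)) (by norm_num : (1:ℝ) < 2)
    rw [div_lt_iff₀ (by positivity)] at hl
    obtain ⟨n, hn⟩ := hτsurj l m
    refine ⟨n, ?_⟩
    have h1 := hg n l
    rw [hn] at h1
    have h2 : 2 * δ / 2 ^ l < ε / 2 := by
      rw [div_lt_iff₀ (by positivity)]
      linarith
    have h3 := dist_triangle y (xs u m) (g n)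
    linarith
  obtain ⟨G, hG⟩ := exists_isometryEquiv hxd hgdense hgd
  refine ⟨G, ?_⟩
  refine hausdorffEDist_le_of_mem_edist ?_ ?_
  · rintro _ ⟨a, ha, rfl⟩
    obtain ⟨n, hn⟩ := hxd.exists_dist_lt a hδ
    rw [dist_comm] at hn
    have h1 := hh_lt_of_dist ha hn
    have h2 := hM n
    rw [abs_lt] at h2
    have h3 : hh B (xs u (τ (0, n))) < 3 * δ := by linarith [h2.1, h2.2]
    obtain ⟨b, hb, hdb⟩ := exists_dist_lt_of_hh (by linarith) h3
    refine ⟨b, hb, ?_⟩
    rw [edist_dist]
    apply ENNReal.ofReal_le_ofReal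
    have h4 := hg n 0
    rw [pow_zero, div_one, dist_comm] at h4
    have h5 : dist (G a) (g n) < δ := by
      rw [← hG n, G.dist_eq, dist_comm]
      exact hn
    have h6 := dist_triangle4 (G a) (g n) (xs u (τ (0, n))) b
    linarith
  · intro b hb
    obtain ⟨m, hm⟩ := hxd.exists_dist_lt b hδ
    rw [dist_comm] at hm
    have h1 := hh_lt_of_dist hb hm
    obtain ⟨n, hn⟩ := hτsurj 0 m
    have h2 := hM n
    rw [hn, abs_lt] at h2
    have h3 : hh A (xs u n) < 3 * δ := by linarith [h2.1, h2.2]
    obtain ⟨a, ha, hda⟩ := exists_dist_lt_of_hh (by linarith) h3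
    refine ⟨G a, ⟨a, ha, rfl⟩, ?_⟩
    rw [edist_dist]
    apply ENNReal.ofReal_le_ofReal
    have h4 := hg n 0
    rw [pow_zero, div_one, hn] at h4
    have h5 : dist (g n) (G a) < 3 * δ := by
      rw [← hG n, G.dist_eq]
      exact hda
    have h6 := dist_triangle4 b (xs u m) (g n) (G a)
    rw [dist_comm b (xs u m)] at h6
    linarith


theorem measurable_hh (y : U) :
    @Measurable (Closeds U) ℝ (effros U) _ (fun A : Closeds U => hh (A : Set U) y) := by
  let mE : MeasurableSpace (Closeds U) := effros U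
  have h1 : Measurable (fun A : Closeds U => infEDist y (A : Set U)) := by
    refine measurable_of_Iio ?_
    intro r
    apply MeasurableSpace.measurableSet_generateFrom
    refine ⟨{z | edist y z < r}, isOpen_lt (continuous_const.edist continuous_id)
      continuous_const, ?_⟩
    ext F
    simp only [mem_preimage, mem_Iio, infEDist_lt_iff, mem_ofPred_eq]
    rfl
  unfold hh
  exact (measurable_const.min h1).ennreal_toReal

theorem measurable_code (u : ℕ → U) (q : ℕ → ℝ) :
    @Measurable (Closeds U) Met (effros U) (borel Met) (fun A => code u q (A : Set U)) := by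
  have hb : borel Met = (Subtype.instMeasurableSpace : MeasurableSpace Met) :=
    (BorelSpace.measurable_eq (α := Met)).symm
  rw [hb]
  refine @Measurable.subtype_mk _ _ (effros U) _ _ _ ?_ _
  refine @measurable_pi_lambda _ _ _ (effros U) _ _ ?_
  rintro ⟨i, j⟩
  dsimp only
  unfold DD
  by_cases hij : ee i = ee j
  · simp only [hij, if_true]
    exact @measurable_const _ _ _ (effros U) _
  · simp only [hij, if_false]
    have : @Measurable (Closeds U) ℝ (effros U) _
        (fun A : Closeds U => lab u q (A : Set U) (ee i) (ee j)) := by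
      rcases ee i with _ | p <;> rcases ee j with _ | r
      · exact @measurable_const _ _ _ (effros U) _
      · exact (measurable_hh (xs u r.2)).const_add 14
      · exact (measurable_hh (xs u p.2)).const_add 14
      · exact @measurable_const _ _ _ (effros U) _
    exact this.const_add _

end coding

/-- **Theorem.** For every nonempty complete separable metric space `U` (in particular for the
Urysohn space), the orbit pseudometric of `Iso(U)` acting on the closed subsets of `U` is
Borel-uniformly continuous reducible to the Gromov–Hausdorff distance. -/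
theorem result (U : Type) [MetricSpace U] [CompleteSpace U] [SeparableSpace U] [Nonempty U] :
    BUReducible (effros U) (borel Met) (rhoOrb U) rhoGH := by
  obtain ⟨u, hu⟩ := TopologicalSpace.exists_dense_seq U
  obtain ⟨q, hq⟩ := TopologicalSpace.exists_dense_seq ℝ
  refine ⟨fun A => code u q (A : Set U), measurable_code u q, ?_⟩
  intro ε hε
  refine ⟨ε / 2, by positivity, min (1 / 8) (ε / 7), by positivity, ?_⟩
  intro A B
  constructor
  · intro h
    unfold rhoOrb at h
    rw [iInf_lt_iff] at h
    obtain ⟨g, h⟩ := h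
    rw [iInf_lt_iff] at h
    obtain ⟨k, h⟩ := h
    have h1 : hausdorffEDist ((g.trans k.symm) '' (A : Set U)) (B : Set U)
        < ENNReal.ofReal (ε / 2) := by
      rw [← hausdorffEDist_image k.isometry, ← image_comp]
      have : (k ∘ (g.trans k.symm)) = g := by
        ext x
        simp
      rw [this]
      exact h
    refine lt_of_le_of_lt (rhoGH_code_le hu q (g.trans k.symm) (by positivity) h1) ?_
    rw [ENNReal.ofReal_lt_ofReal_iff hε]
    linarith
  · intro h
    obtain ⟨G, hG⟩ := rhoOrb_le hu hq (δ := min (1 / 8) (ε / 7)) (by positivity)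
      (min_le_left _ _) h
    have h1 : rhoOrb U A B ≤ hausdorffEDist (G '' (A : Set U)) (B : Set U) := by
      unfold rhoOrb
      refine (iInf_le _ G).trans ((iInf_le _ (IsometryEquiv.refl U)).trans (le_of_eq ?_))
      congr 1
      exact (image_id _)
    refine lt_of_le_of_lt (h1.trans hG) ?_
    rw [ENNReal.ofReal_lt_ofReal_iff hε]
    have := min_le_right (1 / 8) (ε / 7)
    linarith

end Pool.Agent.Results.MP_d52b88_lc.OrbitToGH
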